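import Pool.Agent.H32.RK.TargetsA

/-!
# Row AQO: for most pairs the density modulo an ideal is at least one half (number fields)
-/

set_option autoImplicit false

open Finset NumberField Pool.Agent.H32.RQ Pool.Agent.H32.RK

namespace Pool.Agent.H29.RK

theorem card_quot_comap {O : Type} [CommRing O] (𝔪 : Ideal O) (I : Ideal (O ⧸ 𝔪)) :
    Nat.card ((O ⧸ 𝔪) ⧸ I) = Nat.card (O ⧸ I.comap (Ideal.Quotient.mk 𝔪)) := by
  have hs : Function.Surjective ((Ideal.Quotient.mk I).comp (Ideal.Quotient.mk 𝔪)) :=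
    Ideal.Quotient.mk_surjective.comp Ideal.Quotient.mk_surjective
  have hk : RingHom.ker ((Ideal.Quotient.mk I).comp (Ideal.Quotient.mk 𝔪)) =
      I.comap (Ideal.Quotient.mk 𝔪) := by
    ext z
    rw [RingHom.mem_ker, Ideal.mem_comap, RingHom.comp_apply, Ideal.Quotient.eq_zero_iff_mem]
  rw [← hk]
  exact (Nat.card_congr (RingHom.quotientKerEquivOfSurjective hs).toEquiv).symm

theorem pf_AQO (K : Type) [Field K] [NumberField K] (hAQD : T_AQD) (hIDS : T_IDS K) :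
    T_AQO K := by
  classical
  obtain ⟨C, hC, -, h2, -⟩ := hIDS
  refine ⟨12 * C, by linarith, ?_⟩
  intro s w₀ 𝔪 hs hw hm hp
  have : Finite (𝓞 K ⧸ 𝔪) := Ideal.finiteQuotientOfFreeOfNeBot 𝔪 hm
  have : Finite (Ideal (𝓞 K ⧸ 𝔪)) :=
    Finite.of_injective (fun I : Ideal (𝓞 K ⧸ 𝔪) => (I : Set (𝓞 K ⧸ 𝔪))) SetLike.coe_injective
  have : Fintype (Ideal (𝓞 K ⧸ 𝔪)) := Fintype.ofFinite _
  have hcard : Nat.card (𝓞 K ⧸ 𝔪) = Ideal.absNorm 𝔪 := by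
    rw [Ideal.absNorm_apply, Submodule.cardQuot_apply]
  have h1 := hAQD (𝓞 K ⧸ 𝔪) s Finset.univ hs (fun I => Finset.mem_univ I)
  rw [hcard] at h1
  have hsum : ∑ I ∈ (Finset.univ : Finset (Ideal (𝓞 K ⧸ 𝔪))).erase ⊤,
      1 / (Nat.card ((𝓞 K ⧸ 𝔪) ⧸ I) : ℝ) ^ 3 ≤ C / (w₀ : ℝ) ^ 2 := by
    have hinj : Set.InjOn (fun I : Ideal (𝓞 K ⧸ 𝔪) => I.comap (Ideal.Quotient.mk 𝔪))
        (((Finset.univ : Finset (Ideal (𝓞 K ⧸ 𝔪))).erase ⊤ : Finset _) :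
          Set (Ideal (𝓞 K ⧸ 𝔪))) :=
      fun I _ J _ h => Ideal.comap_injective_of_surjective _ Ideal.Quotient.mk_surjective h
    have e : ∑ I ∈ (Finset.univ : Finset (Ideal (𝓞 K ⧸ 𝔪))).erase ⊤,
        1 / (Nat.card ((𝓞 K ⧸ 𝔪) ⧸ I) : ℝ) ^ 3 =
        ∑ 𝔤 ∈ ((Finset.univ : Finset (Ideal (𝓞 K ⧸ 𝔪))).erase ⊤).image
          (fun I : Ideal (𝓞 K ⧸ 𝔪) => I.comap (Ideal.Quotient.mk 𝔪)),
          1 / (Ideal.absNorm 𝔤 : ℝ) ^ 3 := by
      rw [Finset.sum_image hinj]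
      refine Finset.sum_congr rfl fun I _ => ?_
      rw [card_quot_comap, Ideal.absNorm_apply, Submodule.cardQuot_apply]
    rw [e]
    refine h2 3 w₀ _ (by norm_num) hw ?_
    intro 𝔤 h𝔤
    obtain ⟨I, hI, rfl⟩ := Finset.mem_image.1 h𝔤
    have hIt : I ≠ ⊤ := Finset.ne_of_mem_erase hI
    have hct : I.comap (Ideal.Quotient.mk 𝔪) ≠ ⊤ := by
      intro h
      exact hIt ((Ideal.comap_eq_top_iff).1 h)
    have hmle : 𝔪 ≤ I.comap (Ideal.Quotient.mk 𝔪) := by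
      intro z hz
      rw [Ideal.mem_comap, Ideal.Quotient.eq_zero_iff_mem.2 hz]
      exact I.zero_mem
    have hcb : I.comap (Ideal.Quotient.mk 𝔪) ≠ ⊥ := by
      intro h
      rw [h] at hmle
      exact hm (le_bot_iff.1 hmle)
    obtain ⟨P, hP, hle⟩ := Ideal.exists_le_maximal _ hct
    have h3 := hp P hP.isPrime (hmle.trans hle)
    refine h3.trans_le (Nat.le_of_dvd ?_ (Ideal.absNorm_dvd_absNorm_of_le hle))
    exact Nat.pos_of_ne_zero fun h => hcb (Ideal.absNorm_eq_zero_iff.1 h)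
  have hw0 : (0 : ℝ) < (w₀ : ℝ) ^ 2 := by
    have : (0 : ℝ) < w₀ := by exact_mod_cast hw
    positivity
  have hN : (0 : ℝ) ≤ (Ideal.absNorm 𝔪 : ℝ) ^ (2 * md s) := by positivity
  have h4 : 12 * (Ideal.absNorm 𝔪 : ℝ) ^ (2 * md s) *
      ∑ I ∈ (Finset.univ : Finset (Ideal (𝓞 K ⧸ 𝔪))).erase ⊤,
        1 / (Nat.card ((𝓞 K ⧸ 𝔪) ⧸ I) : ℝ) ^ 3 ≤
      12 * (Ideal.absNorm 𝔪 : ℝ) ^ (2 * md s) * (C / (w₀ : ℝ) ^ 2) :=
    mul_le_mul_of_nonneg_left hsum (by positivity)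
  have h5 := mul_le_mul_of_nonneg_right (h1.trans h4) hw0.le
  refine h5.trans (le_of_eq ?_)
  field_simp

end Pool.Agent.H29.RK
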