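import Pool.Agent.H32.RK.TargetsA
import Pool.Agent.H32.RQ.All
import Pool.Agent.H1.RQ.EXF

/-!
# Row EXF: the expectation of a character over the quadratic forms (number fields)
-/

set_option autoImplicit false

open Finset NumberField Pool.Agent.H32.RQ Pool.Agent.H32.RK

namespace Pool.Agent.H29.RK

open Pool.Agent.H1.RQ (sum_prod_pi e_sum)

theorem pf_EXF (K : Type) [Field K] [NumberField K] : T_EXF K := by
  intro ι _ _ ω s Q J _ x y j k hJ hQ
  obtain ⟨h1, -⟩ := Pool.Agent.H32.RQ.All.x_FJT Q J hJ hQ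
  obtain ⟨a, ha⟩ : ∃ a : Mon s → ι → ZMod Q,
      a = fun p l => lf ω Q j (nu x p) l + lf ω Q k (nu y p) l := ⟨_, rfl⟩
  have hone : ∀ (f : Mon s → ι → ZMod Q) (z : Fin s → 𝓞 K) (i : ι → ZMod Q),
      ∑ m, i m * qc ω Q f z m = ∑ p, ∑ l, lf ω Q i (nu z p) l * f p l := by
    intro f z i
    unfold qc lf
    simp only [Finset.mul_sum, Finset.sum_mul]
    rw [Finset.sum_comm]
    refine Finset.sum_congr rfl fun p _ => ?_
    rw [Finset.sum_comm]
    refine Finset.sum_congr rfl fun l _ => Finset.sum_congr rfl fun m _ => ?_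
    ring
  have hphase : ∀ f : Mon s → ι → ZMod Q,
      ∑ m, (j m * qc ω Q f x m + k m * qc ω Q f y m) = ∑ p, ∑ l, a p l * f p l := by
    intro f
    rw [Finset.sum_add_distrib, hone, hone, ← Finset.sum_add_distrib]
    refine Finset.sum_congr rfl fun p _ => ?_
    rw [← Finset.sum_add_distrib]
    refine Finset.sum_congr rfl fun l _ => ?_
    rw [ha]
    ring
  have hterm : ∀ f : Mon s → ι → ZMod Q, ((∏ p, ∏ l, fj Q J (f p l) : ℝ) : ℂ) *
      ZMod.stdAddChar (∑ m, (j m * qc ω Q f x m + k m * qc ω Q f y m)) =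
      ∏ p, ∏ l, (((fj Q J (f p l) : ℝ) : ℂ) * ZMod.stdAddChar (a p l * f p l)) := by
    intro f
    rw [hphase f, e_sum, Complex.ofReal_prod, ← Finset.prod_mul_distrib]
    refine Finset.prod_congr rfl fun p _ => ?_
    rw [e_sum, Complex.ofReal_prod, ← Finset.prod_mul_distrib]
  rw [Finset.sum_congr rfl fun f _ => hterm f,
    sum_prod_pi fun (p : Mon s) (g : ι → ZMod Q) =>
      ∏ l, (((fj Q J (g l) : ℝ) : ℂ) * ZMod.stdAddChar (a p l * g l))]
  have h2 : ∀ p : Mon s, ∑ g : ι → ZMod Q,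
      ∏ l, (((fj Q J (g l) : ℝ) : ℂ) * ZMod.stdAddChar (a p l * g l)) =
      ((((Q : ℝ) / J) ^ Fintype.card ι * ∏ l, tri Q J (a p l) : ℝ) : ℂ) := by
    intro p
    rw [sum_prod_pi fun (l : ι) (u : ZMod Q) =>
      ((fj Q J u : ℝ) : ℂ) * ZMod.stdAddChar (a p l * u),
      Finset.prod_congr rfl fun l _ => h1 (a p l), ← Complex.ofReal_prod,
      Finset.prod_mul_distrib, Finset.prod_const, Finset.card_univ]
  rw [Finset.prod_congr rfl fun p _ => h2 p, ← Complex.ofReal_prod, Finset.prod_mul_distrib,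
    Finset.prod_const, Finset.card_univ, ← pow_mul]
  unfold Pool.Agent.H32.RK.rr
  rw [ha, mul_comm (Fintype.card ι) (md s)]

end Pool.Agent.H29.RK
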