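import Pool.Agent.H32.RK.TargetsA
import Pool.Agent.H68.RQ.HEN

/-!
# Row HEN: Hensel's lemma for two quadratic forms (number fields)
-/

set_option autoImplicit false

open Finset NumberField Pool.Agent.H32.RQ Pool.Agent.H32.RK

namespace Pool.Agent.H29.RK

open Pool.Agent.H68.RQ (sum_dq qf_add)

section gen

variable {R : Type} [CommRing R] {s : ℕ} (I : Ideal R)

theorem dq_sub_mem (f : Mon s → R) (x y : Fin s → R) (h : ∀ j, y j - x j ∈ I) (j : Fin s) :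
    dq f y j - dq f x j ∈ I := by
  unfold dq
  rw [← Finset.sum_sub_distrib]
  refine I.sum_mem fun p _ => ?_
  rw [← mul_sub]
  refine I.mul_mem_left _ ?_
  have e : ((if p.1.1 = j then y p.1.2 else 0) + (if p.1.2 = j then y p.1.1 else 0)) -
      ((if p.1.1 = j then x p.1.2 else 0) + (if p.1.2 = j then x p.1.1 else 0)) =
      (if p.1.1 = j then y p.1.2 - x p.1.2 else 0) +
        (if p.1.2 = j then y p.1.1 - x p.1.1 else 0) := by
    split_ifs <;> ring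
  rw [e]
  refine I.add_mem ?_ ?_
  · split_ifs
    · exact h _
    · exact I.zero_mem
  · split_ifs
    · exact h _
    · exact I.zero_mem

theorem jm_sub_mem (c : Fin 2 → Mon s → R) (x y : Fin s → R) (h : ∀ j, y j - x j ∈ I)
    (a b : Fin s) : jm c y a b - jm c x a b ∈ I := by
  have hu := dq_sub_mem I (c 0) x y h a
  have hv := dq_sub_mem I (c 0) x y h b
  have hw := dq_sub_mem I (c 1) x y h a
  have hz := dq_sub_mem I (c 1) x y h b
  unfold jm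
  have e : dq (c 0) y a * dq (c 1) y b - dq (c 0) y b * dq (c 1) y a -
      (dq (c 0) x a * dq (c 1) x b - dq (c 0) x b * dq (c 1) x a) =
      (dq (c 0) y a - dq (c 0) x a) * dq (c 1) y b + dq (c 0) x a * (dq (c 1) y b - dq (c 1) x b) -
        ((dq (c 0) y b - dq (c 0) x b) * dq (c 1) y a +
          dq (c 0) x b * (dq (c 1) y a - dq (c 1) x a)) := by
    ring
  rw [e]
  exact I.sub_mem (I.add_mem (I.mul_mem_right _ hu) (I.mul_mem_left _ hz))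
    (I.add_mem (I.mul_mem_right _ hv) (I.mul_mem_left _ hw))

theorem qf_mem (k : ℕ) (f : Mon s → R) (h : Fin s → R) (hm : ∀ j, h j ∈ I ^ k) :
    qf f h ∈ I ^ (k + k) := by
  unfold qf
  refine Ideal.sum_mem _ fun p _ => ?_
  refine Ideal.mul_mem_left _ _ ?_
  rw [pow_add]
  exact Ideal.mul_mem_mul (hm _) (hm _)

end gen

theorem hen_step {K : Type} [Field K] [NumberField K] (hDVP : T_DVP K) {s τ n : ℕ}
    {𝔭 : Ideal (𝓞 K)} {c : Fin 2 → Mon s → 𝓞 K} {x : Fin s → 𝓞 K} {a b : Fin s}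
    (hp : 𝔭.IsPrime) (hp0 : 𝔭 ≠ ⊥) (h1 : jm c x a b ∈ 𝔭 ^ τ) (h2 : jm c x a b ∉ 𝔭 ^ (τ + 1))
    (hn : 2 * τ + 1 ≤ n) (y : Fin s → 𝓞 K) (hy1 : ∀ j, j ≠ a → j ≠ b → y j = x j)
    (hy2 : ∀ j, y j - x j ∈ 𝔭 ^ (τ + 1)) (hy3 : ∀ i, qf (c i) y ∈ 𝔭 ^ n) :
    ∃ z : Fin s → 𝓞 K, (∀ j, j ≠ a → j ≠ b → z j = x j) ∧ (∀ j, z j - x j ∈ 𝔭 ^ (τ + 1)) ∧
      ∀ i, qf (c i) z ∈ 𝔭 ^ (n + 1) := by
  have hd := jm_sub_mem (𝔭 ^ (τ + 1)) c x y hy2 a b
  have h3 : jm c y a b ∈ 𝔭 ^ τ := by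
    have h4 := Ideal.pow_le_pow_right (Nat.le_succ τ) hd
    have h5 := Ideal.add_mem _ h4 h1
    rwa [sub_add_cancel] at h5
  have h3' : jm c y a b ∉ 𝔭 ^ (τ + 1) := by
    intro h4
    have h5 := Ideal.sub_mem _ h4 hd
    rw [sub_sub_cancel] at h5
    exact h2 h5
  obtain ⟨ψ0, hψ0, hq0⟩ := hDVP 𝔭 τ n (jm c y a b) (qf (c 0) y) hp hp0 h3 h3' (by omega) (hy3 0)
  obtain ⟨ψ1, hψ1, hq1⟩ := hDVP 𝔭 τ n (jm c y a b) (qf (c 1) y) hp hp0 h3 h3' (by omega) (hy3 1)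
  obtain ⟨A0, hA0⟩ : ∃ A0, A0 = dq (c 0) y a := ⟨_, rfl⟩
  obtain ⟨A1, hA1⟩ : ∃ A1, A1 = dq (c 1) y a := ⟨_, rfl⟩
  obtain ⟨B0, hB0⟩ : ∃ B0, B0 = dq (c 0) y b := ⟨_, rfl⟩
  obtain ⟨B1, hB1⟩ : ∃ B1, B1 = dq (c 1) y b := ⟨_, rfl⟩
  have hJ : jm c y a b = A0 * B1 - B0 * A1 := by
    rw [hA0, hA1, hB0, hB1]
    rfl
  obtain ⟨ha, hha⟩ : ∃ ha, ha = -(B1 * ψ0 - B0 * ψ1) := ⟨_, rfl⟩
  obtain ⟨hb, hhb⟩ : ∃ hb, hb = -(-A1 * ψ0 + A0 * ψ1) := ⟨_, rfl⟩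
  obtain ⟨h, hh⟩ : ∃ h : Fin s → 𝓞 K, h = fun j => (if a = j then ha else 0) +
    (if b = j then hb else 0) := ⟨_, rfl⟩
  have hsum : ∀ i, ∑ j, dq (c i) y j * h j = dq (c i) y a * ha + dq (c i) y b * hb := by
    intro i
    have e : ∀ j, dq (c i) y j * h j = (if a = j then dq (c i) y j * ha else 0) +
        (if b = j then dq (c i) y j * hb else 0) := by
      intro j
      rw [hh]
      show dq (c i) y j * ((if a = j then ha else 0) + (if b = j then hb else 0)) = _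
      split_ifs <;> ring
    simp only [e]
    rw [Finset.sum_add_distrib, Finset.sum_ite_eq, Finset.sum_ite_eq]
    simp
  have ea : ha ∈ 𝔭 ^ (n - τ) := by
    rw [hha]
    exact Ideal.neg_mem_iff _ |>.2 (Ideal.sub_mem _ (Ideal.mul_mem_left _ _ hψ0)
      (Ideal.mul_mem_left _ _ hψ1))
  have eb : hb ∈ 𝔭 ^ (n - τ) := by
    rw [hhb]
    exact Ideal.neg_mem_iff _ |>.2 (Ideal.add_mem _ (Ideal.mul_mem_left _ _ hψ0)
      (Ideal.mul_mem_left _ _ hψ1))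
  have hPh : ∀ j, h j ∈ 𝔭 ^ (n - τ) := by
    intro j
    rw [hh]
    refine Ideal.add_mem _ ?_ ?_
    · split_ifs
      · exact ea
      · exact Ideal.zero_mem _
    · split_ifs
      · exact eb
      · exact Ideal.zero_mem _
  have hquad : ∀ i, qf (c i) h ∈ 𝔭 ^ (n + 1) := fun i =>
    Ideal.pow_le_pow_right (by omega) (qf_mem 𝔭 (n - τ) (c i) h hPh)
  refine ⟨fun j => y j + h j, ?_, ?_, ?_⟩
  · intro j ja jb
    show y j + h j = x j
    rw [hh]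
    show y j + ((if a = j then ha else 0) + (if b = j then hb else 0)) = x j
    rw [if_neg (Ne.symm ja), if_neg (Ne.symm jb), hy1 j ja jb]
    ring
  · intro j
    show y j + h j - x j ∈ 𝔭 ^ (τ + 1)
    have e : y j + h j - x j = (y j - x j) + h j := by ring
    rw [e]
    exact Ideal.add_mem _ (hy2 j) (Ideal.pow_le_pow_right (by omega) (hPh j))
  · have hfin : ∀ i ψ, jm c y a b * ψ - qf (c i) y ∈ 𝔭 ^ (n + 1) →
        dq (c i) y a * ha + dq (c i) y b * hb = -(jm c y a b * ψ) →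
        qf (c i) (fun j => y j + h j) ∈ 𝔭 ^ (n + 1) := by
      intro i ψ hφ hlin
      rw [qf_add, hsum, hlin]
      have e : qf (c i) y + -(jm c y a b * ψ) + qf (c i) h =
          qf (c i) h - (jm c y a b * ψ - qf (c i) y) := by ring
      rw [e]
      exact Ideal.sub_mem _ (hquad i) hφ
    intro i
    fin_cases i
    · refine hfin 0 ψ0 hq0 ?_
      rw [hJ, ← hA0, ← hB0, hha, hhb]
      ring
    · refine hfin 1 ψ1 hq1 ?_
      rw [hJ, ← hA1, ← hB1, hha, hhb]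
      ring

theorem pf_HEN (K : Type) [Field K] [NumberField K] (hDVP : T_DVP K) : T_HEN K := by
  intro s τ n 𝔭 c x a b hp hp0 h1 h2 h3
  have key : ∀ r : ℕ, ∃ y : Fin s → 𝓞 K, (∀ j, j ≠ a → j ≠ b → y j = x j) ∧
      (∀ j, y j - x j ∈ 𝔭 ^ (τ + 1)) ∧ ∀ i, qf (c i) y ∈ 𝔭 ^ (2 * τ + 1 + r) := by
    intro r
    induction r with
    | zero => exact ⟨x, fun _ _ _ => rfl, fun j => by rw [sub_self]; exact Ideal.zero_mem _, h3⟩
    | succ r ih =>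
      obtain ⟨y, hy1, hy2, hy3⟩ := ih
      exact hen_step hDVP hp hp0 h1 h2 (n := 2 * τ + 1 + r) (by omega) y hy1 hy2 hy3
  obtain ⟨y, hy1, hy2, hy3⟩ := key n
  exact ⟨y, hy1, hy2, fun i => Ideal.pow_le_pow_right (by omega) (hy3 i)⟩

end Pool.Agent.H29.RK
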